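import Mathlib

set_option autoImplicit false
open Finset MeasureTheory

namespace Pool.Agent.Results.MP_ee40c7_co.Cex

noncomputable def area (A : Finset (ℝ × ℝ)) : ℝ := (volume (convexHull ℝ (A : Set (ℝ × ℝ)))).toReal

noncomputable def T (k : ℕ) (S : Finset (ℝ × ℝ)) : ℝ := sSup {x | ∃ A ⊆ S, A.card = k ∧ x = area A}

noncomputable def t (k : ℕ) (S : Finset (ℝ × ℝ)) : ℝ :=
  sInf {x | ∃ A ⊆ S, A.card = k ∧ x = area A ∧ 0 < x}

noncomputable def f (k n : ℕ) : ℝ :=
  sInf {r | ∃ S : Finset (ℝ × ℝ), S.card = n ∧ ¬ Collinear ℝ (S : Set (ℝ × ℝ)) ∧ r = T k S / t k S}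

noncomputable def Sn (n : ℕ) : Finset (ℝ × ℝ) :=
  (range ((n - 1) / 2 + 1)).image (fun j : ℕ => ((0 : ℝ), (j : ℝ))) ∪
    (range ((n - 2) / 2 + 1)).image (fun j : ℕ => ((1 : ℝ), (j : ℝ)))

private def Tr (a b c d : ℝ) : Set (ℝ × ℝ) :=
  {p | p.1 ∈ Set.Icc (0 : ℝ) 1 ∧ p.2 ∈ Set.Icc (a + (c - a) * p.1) (b + (d - b) * p.1)}

private theorem vol (a b c d : ℝ) (h1 : a ≤ b) (h2 : c ≤ d) :
    volume (Tr a b c d) = ENNReal.ofReal ((b - a + (d - c)) / 2) := by
  have m : MeasurableSet (Tr a b c d) :=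
    measurableSet_region_between_cc (f := fun x => a + (c - a) * x) (g := fun x => b + (d - b) * x)
      (by fun_prop) (by fun_prop) measurableSet_Icc
  rw [Measure.volume_eq_prod, Measure.prod_apply m]
  have e : (fun x => volume (Prod.mk x ⁻¹' Tr a b c d)) = (Set.Icc (0 : ℝ) 1).indicator
      fun x => ENNReal.ofReal (b - a + (d - c - (b - a)) * x) := by
    funext x
    by_cases h : x ∈ Set.Icc (0 : ℝ) 1
    · rw [Set.indicator_of_mem h, show Prod.mk x ⁻¹' Tr a b c d =
        Set.Icc (a + (c - a) * x) (b + (d - b) * x) by ext y; simp only [Tr]; simp [h.1, h.2],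
        Real.volume_Icc]
      congr 1; ring
    · rw [Set.indicator_of_notMem h, show Prod.mk x ⁻¹' Tr a b c d = ∅ by
        ext y; simp only [Tr, Set.mem_preimage, Set.mem_ofPred_eq, h]; simp, measure_empty]
  rw [e, lintegral_indicator measurableSet_Icc, ← ofReal_integral_eq_lintegral_ofReal
    (Continuous.integrableOn_Icc (by fun_prop)) (ae_restrict_of_forall_mem measurableSet_Icc
      fun x hx => by simp only [Pi.zero_apply]; nlinarith [hx.1, hx.2]),
    integral_Icc_eq_integral_Ioc, ← intervalIntegral.integral_of_le zero_le_one,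
    intervalIntegral.integral_add (by simp) (Continuous.intervalIntegrable (by fun_prop) _ _),
    intervalIntegral.integral_const_mul]
  simp only [intervalIntegral.integral_const, integral_id]
  congr 1
  simp only [smul_eq_mul]
  ring

private theorem up (A : Finset (ℝ × ℝ)) (a b c d : ℝ) (h1 : a ≤ b) (h2 : c ≤ d)
    (h : ∀ p ∈ A, p ∈ Tr a b c d) : area A ≤ (b - a + (d - c)) / 2 := by
  refine ENNReal.toReal_le_of_le_ofReal (by linarith) (vol a b c d h1 h2 ▸ measure_mono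
    (convexHull_min h ?_))
  rintro p ⟨⟨p1, p2⟩, p3, p4⟩ q ⟨⟨q1, q2⟩, q3, q4⟩ u v hu hv e
  obtain rfl : v = 1 - u := by linarith
  simp only [Tr, Set.mem_ofPred_eq, Set.mem_Icc, Prod.fst_add, Prod.snd_add, Prod.smul_fst,
    Prod.smul_snd, smul_eq_mul]
  refine ⟨⟨by positivity, by nlinarith⟩, ?_, ?_⟩
  · nlinarith [mul_le_mul_of_nonneg_left p3 hu, mul_le_mul_of_nonneg_left q3 hv]
  · nlinarith [mul_le_mul_of_nonneg_left p4 hu, mul_le_mul_of_nonneg_left q4 hv]

private theorem lo (A : Finset (ℝ × ℝ)) (a b c d : ℝ) (h1 : a ≤ b) (h2 : c ≤ d)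
    (ha : (0, a) ∈ A) (hb : (0, b) ∈ A) (hc : (1, c) ∈ A) (hd : (1, d) ∈ A) :
    (b - a + (d - c)) / 2 ≤ area A := by
  refine (ENNReal.ofReal_le_iff_le_toReal
    (A.finite_toSet.isCompact_convexHull ℝ).measure_lt_top.ne).1
    (vol a b c d h1 h2 ▸ measure_mono ?_)
  rintro ⟨x, y⟩ ⟨⟨p1, p2⟩, p3⟩
  have C := convex_convexHull ℝ (A : Set (ℝ × ℝ))
  have S := subset_convexHull ℝ (A : Set (ℝ × ℝ))
  have E : ∀ a c, (0, a) ∈ A → (1, c) ∈ A → (x, a + (c - a) * x) ∈ convexHull ℝ (A : Set (ℝ × ℝ)) :=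
    fun a c ha hc => by
      convert C (S ha) (S hc) (sub_nonneg.2 p2) p1 (sub_add_cancel 1 x) using 1
      ext <;> simp
      ring
  obtain ⟨u, v, hu, hv, e, e'⟩ := Icc_subset_segment (𝕜 := ℝ) p3
  convert C (E a c ha hc) (E b d hb hd) hu hv e using 1
  ext
  · simp [← add_mul, e]
  · exact e'.symm

private theorem zr (A : Finset (ℝ × ℝ)) (h : ∀ p ∈ A, p.1 = 0) : area A = 0 := by
  have : volume (convexHull ℝ (A : Set (ℝ × ℝ))) = 0 := by
    refine measure_mono_null (t := {0} ×ˢ Set.univ) (convexHull_min (fun p hp => ⟨h p hp, trivial⟩)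
      ((convex_singleton _).prod convex_univ)) ?_
    rw [Measure.volume_eq_prod, Measure.prod_prod]
    simp
  rw [area, this]
  rfl

private theorem fin (k : ℕ) (S : Finset (ℝ × ℝ)) :
    {x | ∃ A ⊆ S, A.card = k ∧ x = area A}.Finite :=
  (S.powerset.finite_toSet.image area).subset fun _ ⟨A, h, _, e⟩ => ⟨A, by simpa using h, e.symm⟩

private noncomputable def g (m i : ℕ) : ℝ := i - if i % m = 1 then 1 / 2 else 0

private theorem gm (m : ℕ) : StrictMono (g m) := strictMono_nat_of_lt_succ fun i => by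
  unfold g
  push_cast
  split_ifs <;> linarith

theorem result (k : ℕ) (hk : 4 ≤ k) (N : ℕ) : ∃ n, N ≤ n ∧ k ≤ n ∧ f k n < T k (Sn n) / t k (Sn n) := by
  classical
  obtain ⟨m, rfl⟩ : ∃ m, k = m + 2 := ⟨k - 2, by omega⟩
  obtain ⟨w, hw, w1, w2⟩ : ∃ w, w % m = 1 ∧ N ≤ w ∧ 4 * m ≤ w :=
    ⟨m * (N + 4) + 1, by rw [Nat.mul_add_mod, Nat.mod_eq_of_lt (by omega)], by nlinarith, by nlinarith⟩
  refine ⟨w + 2, by omega, by omega, ?_⟩
  have m0 : (0 : ℝ) < m := Nat.cast_pos.2 (by omega)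
  have g0 : g m 0 = 0 := by simp [g]
  have inj : Function.Injective fun i => ((0 : ℝ), g m i) :=
    fun i j h => (gm m).injective (congrArg Prod.snd h)
  set S : Finset (ℝ × ℝ) := insert (1, 0) ((range (w + 1)).image fun i => (0, g m i)) with hS
  have cS : S.card = w + 2 := by
    rw [hS, card_insert_of_notMem (by simp), card_image_of_injective _ inj, card_range]
  have mS : ∀ i ≤ w, (0, g m i) ∈ S := fun i hi =>
    mem_insert_of_mem (mem_image_of_mem _ (mem_range.2 (by omega)))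
  have g1 : 0 < g m 1 := g0 ▸ gm m one_pos
  have gw : g m w = w - 1 / 2 := by simp [g, hw]
  have w0 : (1 : ℝ) ≤ w := Nat.one_le_cast.2 (by omega)
  have TS : T (m + 2) S ≤ (w - 1 / 2) / 2 := by
    refine Real.sSup_le ?_ (by linarith)
    rintro _ ⟨A, hA, -, rfl⟩
    refine (up A 0 (g m w) 0 0 (by linarith) le_rfl fun p hp => ?_).trans (by rw [gw]; linarith)
    rcases mem_insert.1 (hA hp) with rfl | h
    · simp [Tr]
    · obtain ⟨i, hi, rfl⟩ := mem_image.1 h
      simpa [Tr] using ⟨g0 ▸ (gm m).monotone (Nat.zero_le i),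
        (gm m).monotone (Nat.lt_succ_iff.1 (mem_range.1 hi))⟩
  have tS : (m : ℝ) / 2 ≤ t (m + 2) S := by
    refine le_csInf ?_ ?_
    · obtain ⟨A, a1, a2, a3⟩ := exists_subsuperset_card_eq (n := m + 2)
        (show {(1, 0), (0, g m 0), (0, g m 1)} ⊆ S by
          simp only [insert_subset_iff, singleton_subset_iff]
          exact ⟨mem_insert_self _ _, mS 0 (by omega), mS 1 (by omega)⟩)
        (card_le_three.trans (by omega)) (by omega)
      have := lo A (g m 0) (g m 1) 0 0 (by linarith) le_rfl (a1 (by simp)) (a1 (by simp))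
        (a1 (by simp)) (a1 (by simp))
      exact ⟨_, A, a2, a3, rfl, by linarith⟩
    rintro _ ⟨A, hA, c, rfl, p⟩
    by_cases h : ((1 : ℝ), (0 : ℝ)) ∈ A
    swap
    · refine absurd (zr A fun q hq => ?_) p.ne'
      rcases mem_insert.1 (hA hq) with rfl | h'
      · exact absurd hq h
      · obtain ⟨i, -, rfl⟩ := mem_image.1 h'
        rfl
    set I := (range (w + 1)).filter fun i => ((0 : ℝ), g m i) ∈ A
    have cI : m + 1 ≤ I.card := by
      have : A ⊆ insert (1, 0) (I.image fun i => (0, g m i)) := fun q hq => by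
        rcases mem_insert.1 (hA hq) with rfl | h'
        · exact mem_insert_self _ _
        · obtain ⟨i, hi, rfl⟩ := mem_image.1 h'
          exact mem_insert_of_mem (mem_image_of_mem _ (mem_filter.2 ⟨hi, hq⟩))
      have := (card_le_card this).trans ((card_insert_le _ _).trans
        (Nat.succ_le_succ card_image_le))
      omega
    have nI : I.Nonempty := card_pos.1 (by omega)
    have d : I.min' nI + m ≤ I.max' nI := by
      have := card_le_card (show I ⊆ Icc (I.min' nI) (I.max' nI) from fun i hi =>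
        mem_Icc.2 ⟨min'_le _ _ hi, le_max' _ _ hi⟩)
      rw [Nat.card_Icc] at this
      omega
    have e : g m (I.min' nI + m) = g m (I.min' nI) + m := by
      simp only [g, Nat.add_mod_right]; push_cast; ring
    have := (gm m).monotone d
    have := lo A _ _ 0 0 ((gm m).monotone (min'_le_max' _ nI)) le_rfl
      (mem_filter.1 (min'_mem I nI)).2 (mem_filter.1 (max'_mem I nI)).2 h h
    linarith
  have L : ∀ j ≤ (w + 1) / 2, ((0 : ℝ), (j : ℝ)) ∈ Sn (w + 2) := fun j hj =>
    mem_union_left _ (mem_image_of_mem _ (mem_range.2 (by omega)))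
  have R : ∀ j ≤ w / 2, ((1 : ℝ), (j : ℝ)) ∈ Sn (w + 2) := fun j hj =>
    mem_union_right _ (mem_image_of_mem _ (mem_range.2 (by omega)))
  have jn : Function.Injective fun j : ℕ => ((0 : ℝ), (j : ℝ)) :=
    fun i j h => Nat.cast_injective (congrArg Prod.snd h)
  have TN : (w : ℝ) / 2 ≤ T (m + 2) (Sn (w + 2)) := by
    obtain ⟨A, a1, a2, a3⟩ := exists_subsuperset_card_eq (n := m + 2)
      (show {(0, ((0 : ℕ) : ℝ)), (0, (((w + 1) / 2 : ℕ) : ℝ)), (1, ((0 : ℕ) : ℝ)),
          (1, ((w / 2 : ℕ) : ℝ))} ⊆ Sn (w + 2) by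
        simp only [insert_subset_iff, singleton_subset_iff]
        exact ⟨L 0 (by omega), L _ le_rfl, R 0 (by omega), R _ le_rfl⟩)
      (card_le_four.trans (by omega)) (le_trans (by
        rw [card_image_of_injective _ jn, card_range]; omega) (card_le_card subset_union_left))
    have := lo A _ _ _ _ (Nat.cast_le.2 (Nat.zero_le ((w + 1) / 2)))
      (Nat.cast_le.2 (Nat.zero_le (w / 2))) (a1 (by simp)) (a1 (by simp)) (a1 (by simp)) (a1 (by simp))
    refine le_trans ?_ (le_csSup (fin _ _).bddAbove ⟨A, a2, a3, rfl⟩)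
    have e : (((w + 1) / 2 : ℕ) : ℝ) + ((w / 2 : ℕ) : ℝ) = w := by
      exact_mod_cast (by omega : (w + 1) / 2 + w / 2 = w)
    simp only [Nat.cast_zero] at this
    linarith
  have tN : 0 < t (m + 2) (Sn (w + 2)) ∧ t (m + 2) (Sn (w + 2)) ≤ m / 2 := by
    set A : Finset (ℝ × ℝ) := insert (1, 0) ((range (m + 1)).image fun j : ℕ => (0, (j : ℝ)))
      with hA
    have a1 := lo A ((0 : ℕ) : ℝ) m 0 0 (by simp) le_rfl
      (mem_insert_of_mem (mem_image_of_mem _ (by simp)))
      (mem_insert_of_mem (mem_image_of_mem _ (by simp))) (mem_insert_self _ _) (mem_insert_self _ _)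
    have a2 := up A 0 m 0 0 m0.le le_rfl fun p hp => by
      rcases mem_insert.1 hp with rfl | h
      · simp [Tr]
      · obtain ⟨i, hi, rfl⟩ := mem_image.1 h
        simpa [Tr] using Nat.lt_succ_iff.1 (mem_range.1 hi)
    simp only [Nat.cast_zero] at a1
    have a3 : area A ∈ {x | ∃ A ⊆ Sn (w + 2), A.card = m + 2 ∧ x = area A ∧ 0 < x} := by
      refine ⟨A, insert_subset (by simpa using R 0 (by omega)) (image_subset_iff.2 fun j hj =>
        L j (by have := mem_range.1 hj; omega)), ?_, rfl, by linarith⟩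
      rw [hA, card_insert_of_notMem (by simp), card_image_of_injective _ jn, card_range]
    have F : {x | ∃ A ⊆ Sn (w + 2), A.card = m + 2 ∧ x = area A ∧ 0 < x}.Finite :=
      (fin _ _).subset fun _ ⟨A, a, b, c, _⟩ => ⟨A, a, b, c⟩
    obtain ⟨_, _, _, _, p⟩ := Set.Nonempty.csInf_mem ⟨_, a3⟩ F
    exact ⟨p, (csInf_le F.bddBelow a3).trans (by linarith)⟩
  have nc : ¬ Collinear ℝ (S : Set (ℝ × ℝ)) := fun h => by
    obtain ⟨v, hv⟩ := (collinear_iff_of_mem (mS 0 (by omega))).1 h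
    obtain ⟨r, e⟩ := hv _ (mS 1 (by omega))
    obtain ⟨r', e'⟩ := hv _ (mem_insert_self _ _)
    simp only [g0, Prod.ext_iff, vadd_eq_add, Prod.fst_add, Prod.snd_add, Prod.smul_fst,
      Prod.smul_snd, smul_eq_mul, add_zero] at e e'
    have : r * r' * v.1 * v.2 = g m 1 := by linear_combination -(r * v.2) * e'.1 - e.2
    have : r * r' * v.1 * v.2 = 0 := by linear_combination -(r' * v.2) * e.1
    linarith
  calc f (m + 2) (w + 2) ≤ T (m + 2) S / t (m + 2) S := by
        refine csInf_le ⟨0, ?_⟩ ⟨S, cS, nc, rfl⟩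
        rintro _ ⟨S, -, -, rfl⟩
        exact div_nonneg (Real.sSup_nonneg fun _ ⟨_, _, _, e⟩ => e ▸ ENNReal.toReal_nonneg)
          (Real.sInf_nonneg fun _ ⟨_, _, _, _, e⟩ => e.le)
    _ ≤ (w - 1 / 2) / 2 / (m / 2) := div_le_div₀ (by linarith) TS (by linarith) tS
    _ < w / 2 / (m / 2) := div_lt_div_of_pos_right (by linarith) (by linarith)
    _ ≤ _ := div_le_div₀ (by linarith) TN tN.1 tN.2

end Pool.Agent.Results.MP_ee40c7_co.Cex
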